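import Pool.Agent.Helper66.MC.Infinite

/-!
The minimal non-faces of every multi-cluster complex, for all finite Coxeter systems, all Coxeter
elements and all `k`, with the words indexed by positions of the infinite word `c c c ...`.
-/

set_option autoImplicit false

namespace Pool.Agent.Results.MP_73c0e1_co.ExactNonfaces

open Helper66.MC

universe u v w

variable {B : Type u} {W : Type v} [Group W] {M : CoxeterMatrix B}

/-- The word spelled by a finite set `J` of positions of a finite or infinite word `q`. -/
def spell {ι : Type w} [LinearOrder ι] (q : ι → B) (J : Finset ι) : List B :=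
  (J.sort (· ≤ ·)).map q

/-- The positions in `J` spell a reduced expression for `g`. -/
def Spells (cs : CoxeterSystem M W) {ι : Type w} [LinearOrder ι] (q : ι → B) (J : Finset ι)
    (g : W) : Prop :=
  cs.wordProd (spell q J) = g ∧ J.card = cs.length g

/-- The infinite word `c c c ...`: the position `(j, i)` carries the `i`-th letter of the `j`-th
copy of `c`, and the positions are ordered lexicographically. -/
def copies (c : List B) (p : ℕ ×ₗ Fin c.length) : B := c.get (ofLex p).2

/-- `P` is the position set of the `c`-sorting word of `g`: the lexicographically first reduced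
expression for `g` in the infinite word `c c c ...`. -/
def IsSorting (cs : CoxeterSystem M W) (c : List B) (g : W)
    (P : Finset (ℕ ×ₗ Fin c.length)) : Prop :=
  Spells cs (copies c) P g ∧ ∀ P' : Finset (ℕ ×ₗ Fin c.length), Spells cs (copies c) P' g →
    P' ≠ P → ∃ x ∈ P, x ∉ P' ∧ ∀ y, y < x → (y ∈ P ↔ y ∈ P')

/-- The word `c^k` followed by the word at the positions `P` of the infinite word `c c c ...`. -/
def multiWord (c : List B) (P : Finset (ℕ ×ₗ Fin c.length)) (k : ℕ) : List B :=
  (List.replicate k c).flatten ++ spell (copies c) P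

/-- The faces of the subword complex of the word `Q` and the element `g`: the sets of positions
whose complement contains a reduced expression for `g`. -/
def IsFace (cs : CoxeterSystem M W) (Q : List B) (g : W) (I : Finset (Fin Q.length)) : Prop :=
  ∃ J : Finset (Fin Q.length), Disjoint I J ∧ Spells cs Q.get J g

/-- The minimal non-faces of the subword complex. -/
def IsMinimalNonface (cs : CoxeterSystem M W) (Q : List B) (g : W)
    (I : Finset (Fin Q.length)) : Prop :=
  ¬ IsFace cs Q g I ∧ ∀ I' : Finset (Fin Q.length), I' ⊂ I → IsFace cs Q g I'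

theorem pairwise_sort_lt {ι : Type w} [LinearOrder ι] (J : Finset ι) :
    (J.sort (· ≤ ·)).Pairwise (· < ·) := (Finset.sortedLT_sort J).pairwise

theorem isFace_iff (cs : CoxeterSystem M W) (Q : List B) (g : W) (I : Finset (Fin Q.length)) :
    IsFace cs Q g I ↔
      HasW0 cs g (((List.finRange Q.length).filter (fun i => decide (i ∉ I))).map Q.get) := by
  rw [← face_iff]
  unfold IsFace Spells spell
  refine exists_congr fun J => ?_
  have h : J.sort (· ≤ ·) = (List.finRange Q.length).filter (fun i => decide (i ∈ J)) := by
    apply eq_of_mem_iff_lt (pairwise_sort_lt J) ((List.pairwise_lt_finRange _).filter _)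
    intro x
    simp
  rw [h]

/-- A reduced word for `w0` at positions `P` agreeing with the greedy positions below `x ∈ P` uses
the letter at `x` greedily. -/
theorem used_of_agree (cs : CoxeterSystem M W) (q : ℕ → B) (w0 : W) (P : Finset ℕ)
    (hP : cs.wordProd ((P.sort (· ≤ ·)).map q) = w0) (hPc : P.card = cs.length w0)
    (x : ℕ) (hx : x ∈ P) (hy : ∀ y, y < x → (y ∈ P ↔ Used cs q y)) : Used cs q x := by
  classical
  have h1 : P.sort (· ≤ ·) = (usedList cs q x ++ [x]) ++
      (P.filter (fun t => x < t)).sort (· ≤ ·) := by
    apply eq_of_mem_iff_lt (pairwise_sort_lt P)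
    · rw [List.pairwise_append, List.pairwise_append]
      refine ⟨⟨usedList_pairwise cs q x, List.pairwise_singleton _ _, ?_⟩, pairwise_sort_lt _, ?_⟩
      · intro a ha b hb
        rw [mem_usedList] at ha
        rw [List.mem_singleton] at hb
        omega
      · intro a ha b hb
        rw [Finset.mem_sort, Finset.mem_filter] at hb
        rw [List.mem_append, mem_usedList, List.mem_singleton] at ha
        omega
    · intro t
      rw [Finset.mem_sort, List.mem_append, List.mem_append, mem_usedList, List.mem_singleton,
        Finset.mem_sort, Finset.mem_filter]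
      constructor
      · intro ht
        rcases lt_trichotomy t x with h | h | h
        · exact Or.inl (Or.inl ⟨h, (hy t h).1 ht⟩)
        · exact Or.inl (Or.inr h)
        · exact Or.inr ⟨ht, h⟩
      · rintro ((⟨h, h'⟩ | rfl) | h)
        · exact (hy t h).2 h'
        · exact hx
        · exact h.1
  have hred : cs.IsReduced ((P.sort (· ≤ ·)).map q) := by
    unfold CoxeterSystem.IsReduced
    rw [hP, List.length_map, Finset.length_sort, hPc]
  rw [h1, List.map_append] at hred
  have hred' := isReduced_prefix cs hred
  unfold CoxeterSystem.IsReduced at hred'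
  rw [List.map_append, cs.wordProd_append, (wordProd_usedList cs q x).1, List.length_append,
    List.length_map, (wordProd_usedList cs q x).2] at hred'
  simp only [List.map_cons, List.map_nil, CoxeterSystem.wordProd_singleton,
    List.length_singleton] at hred'
  unfold Used
  omega

/-- The position of the infinite word as a natural number. -/
def pos (c : List B) (p : ℕ ×ₗ Fin c.length) : ℕ := (ofLex p).1 * c.length + (ofLex p).2

theorem pos_lt {c : List B} {p r : ℕ ×ₗ Fin c.length} (h : p < r) : pos c p < pos c r := by
  rw [Prod.Lex.lt_iff] at h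
  unfold pos
  have h1 := (ofLex p).2.2
  have h2 := (ofLex r).2.2
  rcases h with h | ⟨h, h'⟩
  · have h3 : ((ofLex p).1 + 1) * c.length ≤ (ofLex r).1 * c.length :=
      Nat.mul_le_mul_right _ h
    have h4 : ((ofLex p).1 + 1) * c.length = (ofLex p).1 * c.length + c.length := by ring
    omega
  · rw [h]
    have : ((ofLex p).2 : ℕ) < (ofLex r).2 := h'
    omega

theorem pos_inj {c : List B} {p r : ℕ ×ₗ Fin c.length} (h : pos c p = pos c r) : p = r := by
  rcases lt_trichotomy p r with h' | h' | h'
  · exact absurd h (pos_lt h').ne
  · exact h'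
  · exact absurd h (pos_lt h').ne'

theorem pos_lt_iff {c : List B} {p r : ℕ ×ₗ Fin c.length} : pos c p < pos c r ↔ p < r := by
  constructor
  · intro h
    by_contra hcon
    rcases lt_or_eq_of_le (not_lt.1 hcon) with h' | h'
    · exact absurd (pos_lt h') (by omega)
    · rw [h'] at h
      omega
  · exact pos_lt

theorem pos_surj (c : List B) (hn : 0 < c.length) (t : ℕ) : ∃ p, pos c p = t := by
  refine ⟨toLex (t / c.length, ⟨t % c.length, Nat.mod_lt _ hn⟩), ?_⟩
  unfold pos
  simp only [ofLex_toLex]
  have := Nat.div_add_mod t c.length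
  rw [Nat.mul_comm] at this
  exact this

theorem copies_eq (c : List B) (hn : 0 < c.length) (p : ℕ ×ₗ Fin c.length) :
    copies c p = per c hn (pos c p) := by
  unfold copies per pos
  have h : ((ofLex p).1 * c.length + ((ofLex p).2 : ℕ)) % c.length = (ofLex p).2 := by
    rw [Nat.add_comm, Nat.add_mul_mod_self_right, Nat.mod_eq_of_lt (ofLex p).2.2]
  simp only [h]
  rfl

theorem spell_copies (c : List B) (hn : 0 < c.length) (J : Finset (ℕ ×ₗ Fin c.length)) :
    spell (copies c) J = ((J.image (pos c)).sort (· ≤ ·)).map (per c hn) := by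
  have h : (J.sort (· ≤ ·)).map (pos c) = (J.image (pos c)).sort (· ≤ ·) := by
    apply eq_of_mem_iff_lt _ (pairwise_sort_lt _)
    · intro t
      simp [Finset.mem_image]
    · rw [List.pairwise_map]
      exact (pairwise_sort_lt J).imp (fun h => pos_lt h)
  rw [← h, List.map_map]
  unfold spell
  apply List.map_congr_left
  intro p _
  exact copies_eq c hn p

/-- The positions used by the greedy algorithm in the first `N` letters. -/
noncomputable def greedySet (cs : CoxeterSystem M W) (c : List B) (hn : 0 < c.length) (N : ℕ) :
    Finset (ℕ ×ₗ Fin c.length) :=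
  (usedList cs (per c hn) N).toFinset.preimage (pos c) (fun _ _ _ _ h => pos_inj h)

theorem mem_greedySet (cs : CoxeterSystem M W) (c : List B) (hn : 0 < c.length) (N : ℕ) (p) :
    p ∈ greedySet cs c hn N ↔ pos c p < N ∧ Used cs (per c hn) (pos c p) := by
  unfold greedySet
  rw [Finset.mem_preimage, List.mem_toFinset, mem_usedList]

theorem sort_greedySet (cs : CoxeterSystem M W) (c : List B) (hn : 0 < c.length) (N : ℕ) :
    ((greedySet cs c hn N).image (pos c)).sort (· ≤ ·) = usedList cs (per c hn) N := by
  apply eq_of_mem_iff_lt (pairwise_sort_lt _) (usedList_pairwise _ _ _)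
  intro t
  rw [Finset.mem_sort, Finset.mem_image, mem_usedList]
  constructor
  · rintro ⟨p, hp, rfl⟩
    exact (mem_greedySet cs c hn N p).1 hp
  · intro h
    obtain ⟨p, rfl⟩ := pos_surj c hn t
    exact ⟨p, (mem_greedySet cs c hn N p).2 h, rfl⟩

section Finite

variable [Finite W] (cs : CoxeterSystem M W) (c : List B) (hn : 0 < c.length) (w0 : W)
  (h0 : ∀ g, cs.length g ≤ cs.length w0) (N : ℕ) (hN : greedy cs (per c hn) N = w0)

include h0 hN in
theorem used_iff_lt {t : ℕ} (h : Used cs (per c hn) t) : t < N := by
  by_contra hcon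
  have h1 := greedy_stable cs (per c hn) h0 (not_lt.1 hcon) hN
  have h2 := used_length cs (per c hn) h
  rw [h1] at h2
  have := h0 (w0 * cs.simple (per c hn t))
  omega

include h0 hN in
theorem agree_mem (P : Finset (ℕ ×ₗ Fin c.length)) (hP : Spells cs (copies c) P w0)
    (x : ℕ ×ₗ Fin c.length) (hx : x ∈ P)
    (hy : ∀ y, y < x → (y ∈ P ↔ y ∈ greedySet cs c hn N)) : x ∈ greedySet cs c hn N := by
  have h1 : Used cs (per c hn) (pos c x) := by
    apply used_of_agree cs (per c hn) w0 (P.image (pos c))
    · rw [← spell_copies]
      exact hP.1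
    · rw [Finset.card_image_of_injective _ (fun _ _ h => pos_inj h)]
      exact hP.2
    · exact Finset.mem_image_of_mem _ hx
    · intro t ht
      obtain ⟨p, rfl⟩ := pos_surj c hn t
      have h2 : pos c p ∈ P.image (pos c) ↔ p ∈ P := by
        rw [Finset.mem_image]
        constructor
        · rintro ⟨r, hr, h⟩
          rwa [← pos_inj h]
        · exact fun h => ⟨p, h, rfl⟩
      rw [h2, hy p (pos_lt_iff.1 ht), mem_greedySet]
      exact ⟨fun h => h.2, fun h => ⟨used_iff_lt cs c hn w0 h0 N hN h, h⟩⟩
  rw [mem_greedySet]
  exact ⟨used_iff_lt cs c hn w0 h0 N hN h1, h1⟩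

include hN in
theorem spells_greedySet : Spells cs (copies c) (greedySet cs c hn N) w0 := by
  constructor
  · rw [spell_copies c hn, sort_greedySet, (wordProd_usedList cs (per c hn) N).1, hN]
  · rw [← Finset.card_image_of_injective _ (fun _ _ h => pos_inj h),
      ← Finset.length_sort (r := (· ≤ ·)), sort_greedySet, (wordProd_usedList cs (per c hn) N).2, hN]

include h0 hN in
theorem eq_greedySet (P : Finset (ℕ ×ₗ Fin c.length)) (hP : IsSorting cs c w0 P) :
    P = greedySet cs c hn N := by
  by_contra hne
  obtain ⟨x, hx, hxG, hy⟩ := hP.2 _ (spells_greedySet cs c hn w0 N hN) (Ne.symm hne)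
  exact hxG (agree_mem cs c hn w0 h0 N hN P hP.1 x hx hy)

/-- The `c`-sorting word of `w0` exists (so the hypothesis of `result` can be satisfied). -/
theorem isSorting_greedySet (h0 : ∀ g, cs.length g ≤ cs.length w0)
    (hN : greedy cs (per c hn) N = w0) : IsSorting cs c w0 (greedySet cs c hn N) := by
  classical
  refine ⟨spells_greedySet cs c hn w0 N hN, ?_⟩
  intro P hP hne
  have hsd : (symmDiff (greedySet cs c hn N) P).Nonempty := by
    rw [Finset.nonempty_iff_ne_empty]
    intro h
    exact hne (symmDiff_eq_bot.1 h).symm
  obtain ⟨x, hx, hmin⟩ := Finset.exists_min_image _ (fun p => p) hsd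
  have hag : ∀ y, y < x → (y ∈ greedySet cs c hn N ↔ y ∈ P) := by
    intro y hy
    by_contra hcon
    have hy' : y ∈ symmDiff (greedySet cs c hn N) P := by
      rw [Finset.mem_symmDiff]
      tauto
    exact absurd (hmin y hy') (not_le.2 hy)
  rw [Finset.mem_symmDiff] at hx
  rcases hx with ⟨h1, h2⟩ | ⟨h1, h2⟩
  · exact ⟨x, h1, h2, hag⟩
  · exact absurd (agree_mem cs c hn w0 h0 N hN P hP x h1 (fun y hy => (hag y hy).symm)) h2

end Finite

/-- In every multi-cluster complex the minimal non-faces are exactly the non-faces with `k + 1`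
elements. -/
theorem result [Finite W] (cs : CoxeterSystem M W) (c : List B) (hnd : c.Nodup)
    (hall : ∀ b, b ∈ c) (w0 : W) (h0 : ∀ g, cs.length g ≤ cs.length w0)
    (P : Finset (ℕ ×ₗ Fin c.length)) (hP : IsSorting cs c w0 P) (k : ℕ)
    (I : Finset (Fin (multiWord c P k).length)) :
    IsMinimalNonface cs (multiWord c P k) w0 I ↔
      ¬ IsFace cs (multiWord c P k) w0 I ∧ I.card = k + 1 := by
  classical
  have : Fintype B := ⟨⟨c, hnd⟩, fun b => hall b⟩
  rcases Nat.eq_zero_or_pos c.length with hn | hn
  · -- rank 0
    have hc : c = [] := List.length_eq_zero_iff.1 hn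
    have hw0 : w0 = 1 := by
      obtain ⟨V, -, hV⟩ := cs.exists_isReduced w0
      have : V = [] := by
        cases V with
        | nil => rfl
        | cons b V => exact absurd (hall b) (by simp [hc])
      rw [hV, this]
      simp
    have hface : ∀ (Q : List B) (I : Finset (Fin Q.length)), IsFace cs Q w0 I := by
      intro Q I
      refine ⟨∅, Finset.disjoint_empty_right _, ?_, ?_⟩
      · simp [spell, hw0]
      · simp [hw0]
    constructor
    · intro h
      exact absurd (hface _ I) h.1
    · intro h
      exact absurd (hface _ I) h.1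
  · have hasc : ∀ w, w ≠ w0 → ∃ i, ¬ cs.IsRightDescent w i := by
      intro w hw
      have hne : w⁻¹ * w0 ≠ 1 := fun h => hw (inv_mul_eq_one.1 h)
      obtain ⟨i, hi⟩ := cs.exists_leftDescent_of_ne_one hne
      rw [cs.isLeftDescent_iff] at hi
      have h1 := Helper66.MC.longest_add' cs h0 w
      have h2 := cs.length_mul_le (w * cs.simple i) (cs.simple i * (w⁻¹ * w0))
      have h3 : w * cs.simple i * (cs.simple i * (w⁻¹ * w0)) = w0 := by
        rw [mul_assoc, cs.simple_mul_simple_cancel_left]
        group
      rw [h3] at h2
      refine ⟨i, fun hd => ?_⟩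
      rw [cs.isRightDescent_iff] at hd
      omega
    set N := Nat.card W * c.length with hNdef
    have hN : greedy cs (per c hn) N = w0 :=
      greedy_reaches cs (per c hn) hasc h0 c.length (fun s b => exists_per hall s b)
    have hPG := eq_greedySet cs c hn w0 h0 N hN P hP
    have hQ : multiWord c P k = (times cs (per c hn) c.length N k).map (per c hn) := by
      unfold multiWord
      rw [hPG, spell_copies c hn, sort_greedySet, flatten_replicate c hn k, times,
        List.map_append]
      congr 1
      rw [List.map_map]
      apply List.map_congr_left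
      intro a _
      simp only [Function.comp]
      rw [per_add_mul]
    have core : ∀ I : Finset (Fin (multiWord c P k).length),
        ¬ IsFace cs (multiWord c P k) w0 I → k + 1 ≤ I.card ∧
          ∃ I' : Finset (Fin (multiWord c P k).length), I' ⊆ I ∧ I'.card ≤ k + 1 ∧
            ¬ IsFace cs (multiWord c P k) w0 I' := by
      intro I hI
      rw [isFace_iff] at hI
      obtain ⟨h1, I', h2, h3, h4⟩ := nonface_core cs c hnd hall hn w0
        (fun t ht => nested cs c hn hnd hall h0 t ht)
        (fun U hU => key cs c hn hnd hall h0 U hU) N hN k _ hQ I hI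
      refine ⟨h1, I', h2, h3, ?_⟩
      rw [isFace_iff]
      exact h4
    constructor
    · rintro ⟨hI, hmin⟩
      refine ⟨hI, ?_⟩
      obtain ⟨h1, I', h2, h3, h4⟩ := core I hI
      by_cases hII : I' = I
      · rw [hII] at h3
        omega
      · exact absurd (hmin I' (h2.ssubset_of_ne hII)) h4
    · rintro ⟨hI, hc⟩
      refine ⟨hI, ?_⟩
      intro I' hI'
      by_contra hcon
      have h1 := (core I' hcon).1
      have h2 := Finset.card_lt_card hI'
      omega

end Pool.Agent.Results.MP_73c0e1_co.ExactNonfaces
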